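import Mathlib

/-!
# Counting: a memory with few states cannot know many bits
-/

open Finset

namespace Pool.Agent.W977.SM

variable {Z : Type} [Fintype Z] [DecidableEq Z]

/-- The weight of a partial guess. -/
def gw (Cl : Finset Z) (β : Z → Bool) (z : Z → Bool) : ℕ :=
  ∏ u, if u ∈ Cl then (if z u = β u then 2 else 0) else 1

lemma sum_gw (Cl : Finset Z) (β : Z → Bool) :
    ∑ z : Z → Bool, gw Cl β z = 2 ^ Fintype.card Z := by
  have h := Finset.prod_univ_sum (fun _ : Z => (univ : Finset Bool))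
    (fun (u : Z) (x : Bool) => if u ∈ Cl then (if x = β u then 2 else 0) else (1 : ℕ))
  rw [Fintype.piFinset_univ] at h
  unfold gw
  rw [← h]
  have h1 : ∀ u : Z, ∑ x : Bool, (if u ∈ Cl then (if x = β u then 2 else 0) else (1 : ℕ)) = 2 := by
    intro u
    by_cases hu : u ∈ Cl
    · simp [hu]
    · simp [hu]
  rw [Finset.prod_congr rfl fun u _ => h1 u]
  simp

lemma gw_of_agree {Cl : Finset Z} {β z : Z → Bool} (h : ∀ u ∈ Cl, z u = β u) :
    gw Cl β z = 2 ^ Cl.card := by
  unfold gw
  have h1 : ∀ u ∈ (univ : Finset Z), (if u ∈ Cl then (if z u = β u then 2 else 0) else 1) =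
      if u ∈ Cl then 2 else (1 : ℕ) := by
    intro u _
    by_cases hu : u ∈ Cl
    · simp [hu, h u hu]
    · simp [hu]
  rw [Finset.prod_congr rfl h1, Finset.prod_ite_mem, univ_inter, prod_const]

lemma sum_prod_gw (Cl : Z → Finset Z) (β : Z → Z → Bool) :
    ∑ y : Z → Z → Bool, ∏ c, (1 + gw (Cl c) (β c) (y c)) =
      2 ^ Fintype.card Z * 2 ^ (Fintype.card Z * Fintype.card Z) := by
  have h := Finset.prod_univ_sum (fun _ : Z => (univ : Finset (Z → Bool)))
    (fun (c : Z) (z : Z → Bool) => 1 + gw (Cl c) (β c) z)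
  rw [Fintype.piFinset_univ] at h
  rw [← h]
  have h1 : ∀ c : Z, ∑ z : Z → Bool, (1 + gw (Cl c) (β c) z) = 2 * 2 ^ Fintype.card Z := by
    intro c
    rw [sum_add_distrib, sum_gw]
    simp
    ring
  rw [Finset.prod_congr rfl fun u _ => h1 u, prod_const, card_univ, mul_pow, ← pow_mul]

/-- A memory with `2 ^ b` states that was written by a function of the bits `y` makes few correct
guesses. -/
lemma count {b K : ℕ} (Φ : (Z → Z → Bool) → Fin (2 ^ b)) (Cl : Fin (2 ^ b) → Z → Finset Z)
    (β : Fin (2 ^ b) → Z → Z → Bool) (good : (Z → Z → Bool) → Z → Prop) [∀ y c, Decidable (good y c)]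
    (hg : ∀ y c, good y c → K ≤ (Cl (Φ y) c).card ∧ ∀ u ∈ Cl (Φ y) c, y c u = β (Φ y) c u) :
    K * ∑ y : Z → Z → Bool, (univ.filter fun c => good y c).card ≤
      (b + Fintype.card Z + 1) * 2 ^ (Fintype.card Z * Fintype.card Z) := by
  set N := Fintype.card Z with hN
  set B := b + N with hB
  have h1 : ∑ y : Z → Z → Bool, 2 ^ (K * (univ.filter fun c => good y c).card) ≤
      2 ^ B * 2 ^ (N * N) := by
    calc ∑ y : Z → Z → Bool, 2 ^ (K * (univ.filter fun c => good y c).card)
        ≤ ∑ y : Z → Z → Bool, ∏ c, (1 + gw (Cl (Φ y) c) (β (Φ y) c) (y c)) := by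
          refine sum_le_sum fun y _ => ?_
          rw [pow_mul, ← prod_const]
          refine (prod_le_prod' (g := fun c => 1 + gw (Cl (Φ y) c) (β (Φ y) c) (y c))
            fun c hc => ?_).trans ?_
          · have h2 := hg y c (by simpa using hc)
            rw [gw_of_agree h2.2]
            have : 2 ^ K ≤ 2 ^ (Cl (Φ y) c).card := Nat.pow_le_pow_right (by norm_num) h2.1
            omega
          · exact prod_le_prod_of_subset_of_one_le' (filter_subset _ _) fun c _ _ => by omega
      _ ≤ ∑ y : Z → Z → Bool, ∑ q : Fin (2 ^ b), ∏ c, (1 + gw (Cl q c) (β q c) (y c)) := by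
          refine sum_le_sum fun y _ => ?_
          exact single_le_sum (f := fun q => ∏ c, (1 + gw (Cl q c) (β q c) (y c)))
            (fun _ _ => Nat.zero_le _) (mem_univ (Φ y))
      _ = ∑ q : Fin (2 ^ b), ∑ y : Z → Z → Bool, ∏ c, (1 + gw (Cl q c) (β q c) (y c)) := sum_comm
      _ = ∑ _q : Fin (2 ^ b), 2 ^ N * 2 ^ (N * N) := sum_congr rfl fun q _ => sum_prod_gw _ _
      _ = 2 ^ B * 2 ^ (N * N) := by
          rw [sum_const, card_univ, Fintype.card_fin, smul_eq_mul, hB, pow_add]
          ring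
  have h2 : ∀ t : ℕ, 2 ^ B * t ≤ 2 ^ B * B + 2 ^ t := by
    intro t
    rcases le_total t B with h | h
    · exact (Nat.mul_le_mul_left (2 ^ B) h).trans (Nat.le_add_right _ _)
    · obtain ⟨s, rfl⟩ := Nat.exists_eq_add_of_le h
      calc 2 ^ B * (B + s) = 2 ^ B * B + 2 ^ B * s := mul_add _ _ _
        _ ≤ 2 ^ B * B + 2 ^ B * 2 ^ s :=
          Nat.add_le_add_left (Nat.mul_le_mul_left _ (Nat.lt_two_pow_self (n := s)).le) _
        _ = 2 ^ B * B + 2 ^ (B + s) := by rw [pow_add 2 B s]
  have h3 : 2 ^ B * (K * ∑ y : Z → Z → Bool, (univ.filter fun c => good y c).card) ≤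
      2 ^ B * ((B + 1) * 2 ^ (N * N)) := by
    calc 2 ^ B * (K * ∑ y : Z → Z → Bool, (univ.filter fun c => good y c).card)
        = ∑ y : Z → Z → Bool, 2 ^ B * (K * (univ.filter fun c => good y c).card) := by
          rw [mul_sum, mul_sum]
      _ ≤ ∑ y : Z → Z → Bool, (2 ^ B * B + 2 ^ (K * (univ.filter fun c => good y c).card)) :=
          sum_le_sum fun y _ => h2 _
      _ = (∑ _y : Z → Z → Bool, 2 ^ B * B) +
            ∑ y : Z → Z → Bool, 2 ^ (K * (univ.filter fun c => good y c).card) := sum_add_distrib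
      _ ≤ 2 ^ (N * N) * (2 ^ B * B) + 2 ^ B * 2 ^ (N * N) := by
          refine add_le_add (le_of_eq ?_) h1
          rw [sum_const, card_univ, smul_eq_mul]
          congr 1
          simp only [Fintype.card_fun, Fintype.card_bool, ← hN]
          rw [← pow_mul]
      _ = 2 ^ B * ((B + 1) * 2 ^ (N * N)) := by ring
  exact Nat.le_of_mul_le_mul_left h3 (by positivity)

/-- Averaging over one coordinate. -/
lemma sum_update {ι X : Type} [Fintype ι] [DecidableEq ι] [Fintype X] [DecidableEq X]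
    (F : (ι → X) → ℝ) (j : ι) {B : ℝ} (h : ∀ y, ∑ z, F (Function.update y j z) ≤ B) :
    (Fintype.card X : ℝ) * ∑ y, F y ≤ B * Fintype.card (ι → X) := by
  have h1 : ∑ q : (ι → X) × X, F (Function.update q.1 j q.2) = ∑ q : (ι → X) × X, F q.1 := by
    have hinv : Function.Involutive (fun q : (ι → X) × X => (Function.update q.1 j q.2, q.1 j)) := by
      rintro ⟨y, z⟩
      simp
    exact Equiv.sum_comp hinv.toPerm fun q => F q.1
  rw [Fintype.sum_prod_type, Fintype.sum_prod_type] at h1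
  have h2 : ∑ y : ι → X, ∑ _z : X, F y = (Fintype.card X : ℝ) * ∑ y, F y := by
    rw [mul_sum]
    refine sum_congr rfl fun y _ => ?_
    rw [sum_const, card_univ, nsmul_eq_mul]
  rw [← h2, ← h1]
  refine (sum_le_sum fun y _ => h y).trans (le_of_eq ?_)
  rw [sum_const, card_univ, nsmul_eq_mul, mul_comm]

end Pool.Agent.W977.SM
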