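import Mathlib

/-!
# One-pass streaming algorithms for submodular matching

Definitions only.
-/

namespace Pool.Agent.W977.SM

variable {V : Type} [DecidableEq V]

/-- The edges of a simple graph on `V`, in some order, each exactly once. -/
def IsStream (h : List (Sym2 V)) : Prop := h.Nodup ∧ ∀ e ∈ h, ¬ e.IsDiag

/-- No two edges of `M` share a vertex. -/
def IsMatching (M : Finset (Sym2 V)) : Prop :=
  ∀ e ∈ M, ∀ e' ∈ M, ∀ v, v ∈ e → v ∈ e' → e = e'

/-- The objective function is monotone and submodular, with value `0` (hence nonnegative). -/
structure MonoSub (f : Finset (Sym2 V) → ℝ) : Prop where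
  /-- the value of the empty set -/
  empty : f ∅ = 0
  /-- monotone -/
  mono : ∀ A B, A ⊆ B → f A ≤ f B
  /-- submodular -/
  submod : ∀ A B, f (A ∪ B) + f (A ∩ B) ≤ f A + f B

/-- A one-pass streaming algorithm with `b` bits of memory; `ω : Ω` is its random string. When the
edge `e` arrives, the memory `q` is replaced by `step ω q e f`, which is computed with access to a
value oracle for the objective function `f` (see `Legal`). At the end the algorithm outputs
the set of edges `out ω q f`. No bound is imposed on computation time, on the number of
oracle calls, or on the working space used between two edges. -/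
structure Alg (V Ω : Type) [DecidableEq V] (b : ℕ) where
  /-- the initial memory -/
  init : Ω → Fin (2 ^ b)
  /-- the update of the memory -/
  step : Ω → Fin (2 ^ b) → Sym2 V → (Finset (Sym2 V) → ℝ) → Fin (2 ^ b)
  /-- the output -/
  out : Ω → Fin (2 ^ b) → (Finset (Sym2 V) → ℝ) → Finset (Sym2 V)

namespace Alg

variable {Ω : Type} {b : ℕ} (A : Alg V Ω b)

/-- The memory after the stream `h` was read. -/
def run (ω : Ω) (f : Finset (Sym2 V) → ℝ) (h : List (Sym2 V)) : Fin (2 ^ b) :=
  h.foldl (fun q e => A.step ω q e f) (A.init ω)

/-- The oracle is queried only for sets of edges that have already arrived. This implies what is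
demanded here: after the stream `h`, the memory is the same for two functions which agree on all
sets of edges of `h`. -/
def Legal : Prop :=
  ∀ (ω : Ω) (h : List (Sym2 V)) (f g : Finset (Sym2 V) → ℝ), IsStream h → MonoSub f → MonoSub g →
    (∀ S ⊆ h.toFinset, f S = g S) → A.run ω f h = A.run ω g h

/-- The output for the stream `h`. -/
def output (ω : Ω) (f : Finset (Sym2 V) → ℝ) (h : List (Sym2 V)) : Finset (Sym2 V) :=
  A.out ω (A.run ω f h) f

end Alg

/-- The output `M` is a matching of the graph, and no matching has value above `α f(M)`. -/
def Success (α : ℝ) (f : Finset (Sym2 V) → ℝ) (h : List (Sym2 V)) (M : Finset (Sym2 V)) : Prop :=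
  M ⊆ h.toFinset ∧ IsMatching M ∧ ∀ M' ⊆ h.toFinset, IsMatching M' → f M' ≤ α * f M

open Classical in
/-- The probability of the event `P`, for a random string `ω` of probability `μ ω`. -/
noncomputable def prob {Ω : Type} [Fintype Ω] (μ : Ω → ℝ) (P : Ω → Prop) : ℝ :=
  ∑ ω, if P ω then μ ω else 0

/-- The algorithm computes an `α`-approximation of a maximum submodular matching, with probability
at least `2 / 3` for every graph, every order of its edges and every objective function. -/
def Approximates {Ω : Type} [Fintype Ω] {b : ℕ} (μ : Ω → ℝ) (A : Alg V Ω b) (α : ℝ) : Prop :=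
  ∀ (h : List (Sym2 V)) (f : Finset (Sym2 V) → ℝ), IsStream h → MonoSub f →
    2 / 3 ≤ prob μ fun ω => Success α f h (A.output ω f h)

end Pool.Agent.W977.SM
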