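import Pool.Agent.W977.SM.Defs

/-!
# The hard objective functions
-/

open Finset

namespace Pool.Agent.W977.SM

section cover

variable {V : Type} [DecidableEq V] {κ : Type} [Fintype κ]

/-- The product of the weights of the members of a set. -/
def pw (φ : κ → Sym2 V) (w : κ → ℝ) (S : Finset (Sym2 V)) : ℝ :=
  ∏ k, if φ k ∈ S then w k else 1

lemma pw_nonneg {φ : κ → Sym2 V} {w : κ → ℝ} (h0 : ∀ k, 0 ≤ w k) (S : Finset (Sym2 V)) :
    0 ≤ pw φ w S := by
  refine prod_nonneg fun k _ => ?_
  split_ifs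
  · exact h0 k
  · norm_num

lemma pw_empty (φ : κ → Sym2 V) (w : κ → ℝ) : pw φ w ∅ = 1 := by simp [pw]

lemma pw_anti {φ : κ → Sym2 V} {w : κ → ℝ} (h0 : ∀ k, 0 ≤ w k) (h1 : ∀ k, w k ≤ 1)
    {A B : Finset (Sym2 V)} (h : A ⊆ B) : pw φ w B ≤ pw φ w A := by
  refine prod_le_prod (fun k _ => ?_) fun k _ => ?_
  · split_ifs
    · exact h0 k
    · norm_num
  · by_cases hA : φ k ∈ A
    · rw [if_pos hA, if_pos (h hA)]
    · rw [if_neg hA]
      split_ifs
      · exact h1 k
      · exact le_rfl

lemma pw_supermod {φ : κ → Sym2 V} {w : κ → ℝ} (h0 : ∀ k, 0 ≤ w k) (h1 : ∀ k, w k ≤ 1)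
    (A B : Finset (Sym2 V)) : pw φ w A + pw φ w B ≤ pw φ w (A ∪ B) + pw φ w (A ∩ B) := by
  set I := pw φ w (A ∩ B)
  set a := pw φ w (A \ B)
  set b := pw φ w (B \ A)
  have hA : pw φ w A = I * a := by
    simp only [I, a, pw, ← prod_mul_distrib]
    refine prod_congr rfl fun k _ => ?_
    by_cases hA : φ k ∈ A <;> by_cases hB : φ k ∈ B <;> simp [hA, hB]
  have hB : pw φ w B = I * b := by
    simp only [I, b, pw, ← prod_mul_distrib]
    refine prod_congr rfl fun k _ => ?_
    by_cases hA : φ k ∈ A <;> by_cases hB : φ k ∈ B <;> simp [hA, hB]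
  have hU : pw φ w (A ∪ B) = I * a * b := by
    simp only [I, a, b, pw, ← prod_mul_distrib]
    refine prod_congr rfl fun k _ => ?_
    by_cases hA : φ k ∈ A <;> by_cases hB : φ k ∈ B <;> simp [hA, hB]
  have hI : 0 ≤ I := pw_nonneg h0 _
  have ha : a ≤ 1 := by
    rw [← pw_empty φ w]
    exact pw_anti h0 h1 (empty_subset _)
  have hb : b ≤ 1 := by
    rw [← pw_empty φ w]
    exact pw_anti h0 h1 (empty_subset _)
  rw [hA, hB, hU]
  nlinarith [mul_nonneg hI (mul_nonneg (sub_nonneg.2 ha) (sub_nonneg.2 hb))]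

lemma monoSub_of {τ : Type} [Fintype τ] (φ : τ → κ → Sym2 V) (w : τ → κ → ℝ)
    (h0 : ∀ t k, 0 ≤ w t k) (h1 : ∀ t k, w t k ≤ 1) :
    MonoSub (fun S => ∑ t, (1 - pw (φ t) (w t) S)) where
  empty := by simp [pw_empty]
  mono A B h := sum_le_sum fun t _ => by
    have := pw_anti (φ := φ t) (h0 t) (h1 t) h
    linarith
  submod A B := by
    rw [← sum_add_distrib, ← sum_add_distrib]
    refine sum_le_sum fun t _ => ?_
    have := pw_supermod (φ := φ t) (h0 t) (h1 t) A B
    linarith

end cover

section phases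

variable {p : ℕ} {Z : Type} [DecidableEq Z]

/-- The factors `(p - i - 1) / (p - i)`. -/
noncomputable def rr (p i : ℕ) : ℝ := ((p : ℝ) - i - 1) / (p - i)

lemma rr_nonneg (i : Fin p) : 0 ≤ rr p i := by
  have h : ((i : ℕ) : ℝ) + 1 ≤ p := by exact_mod_cast i.2
  unfold rr
  exact div_nonneg (by linarith) (by linarith)

lemma rr_le_one (i : Fin p) : rr p i ≤ 1 := by
  have h : ((i : ℕ) : ℝ) + 1 ≤ p := by exact_mod_cast i.2
  unfold rr
  rw [div_le_one (by linarith)]
  linarith

/-- The factor of an edge of phase `i` on the diagonal `d` in the part `j`; the hidden diagonals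
are `c`. -/
noncomputable def gg (c : Fin p → Z) (j i : Fin p) (d : Z) : ℝ :=
  if i ≤ j then (if d = c i then (if i = j then 0 else 1) else rr p i) else 1

lemma gg_nonneg (c : Fin p → Z) (j i : Fin p) (d : Z) : 0 ≤ gg c j i d := by
  unfold gg
  split_ifs
  · exact le_rfl
  · norm_num
  · exact rr_nonneg i
  · norm_num

lemma gg_le_one (c : Fin p → Z) (j i : Fin p) (d : Z) : gg c j i d ≤ 1 := by
  unfold gg
  split_ifs
  · norm_num
  · exact le_rfl
  · exact rr_le_one i
  · exact le_rfl

/-- The product of the factors of the edges in `T`. -/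
noncomputable def PP (c : Fin p → Z) (T : Fin p → Finset Z) (j : Fin p) : ℝ :=
  ∏ i, ∏ d ∈ T i, gg c j i d

lemma PP_nonneg (c : Fin p → Z) (T : Fin p → Finset Z) (j : Fin p) : 0 ≤ PP c T j :=
  prod_nonneg fun _ _ => prod_nonneg fun _ _ => gg_nonneg _ _ _ _

/-- The part of the product of the phases before `k`. -/
noncomputable def AA (c : Fin p → Z) (T : Fin p → Finset Z) (k : Fin p) : ℝ :=
  ∏ i, if i < k then ∏ d ∈ T i, (if d = c i then 1 else rr p i) else 1

lemma PP_gt {c : Fin p → Z} {T : Fin p → Finset Z} {k j : Fin p} (hT : ∀ i, k < i → T i = ∅)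
    (hj : k < j) : PP c T j = AA c T k * ∏ d ∈ T k, (if d = c k then 1 else rr p k) := by
  unfold PP AA
  rw [← mul_prod_erase univ _ (mem_univ k), ← mul_prod_erase univ _ (mem_univ k), if_neg (lt_irrefl k),
    one_mul, mul_comm]
  congr 1
  · refine prod_congr rfl fun i hi => ?_
    have hik := ne_of_mem_erase hi
    by_cases h : i < k
    · rw [if_pos h]
      refine prod_congr rfl fun d _ => ?_
      unfold gg
      rw [if_pos (h.trans hj).le, if_neg (h.trans hj).ne]
    · rw [if_neg h, hT i (lt_of_le_of_ne (not_lt.1 h) (Ne.symm hik)), prod_empty]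
  · refine prod_congr rfl fun d _ => ?_
    unfold gg
    rw [if_pos hj.le, if_neg hj.ne]

lemma PP_eq {c : Fin p → Z} {T : Fin p → Finset Z} {k : Fin p} (hT : ∀ i, k < i → T i = ∅) :
    PP c T k = AA c T k * ∏ d ∈ T k, (if d = c k then 0 else rr p k) := by
  unfold PP AA
  rw [← mul_prod_erase univ _ (mem_univ k), ← mul_prod_erase univ _ (mem_univ k), if_neg (lt_irrefl k),
    one_mul, mul_comm]
  congr 1
  · refine prod_congr rfl fun i hi => ?_
    have hik := ne_of_mem_erase hi
    by_cases h : i < k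
    · rw [if_pos h]
      refine prod_congr rfl fun d _ => ?_
      unfold gg
      rw [if_pos h.le, if_neg h.ne]
    · rw [if_neg h, hT i (lt_of_le_of_ne (not_lt.1 h) (Ne.symm hik)), prod_empty]
  · refine prod_congr rfl fun d _ => ?_
    unfold gg
    rw [if_pos le_rfl, if_pos rfl]

lemma PP_lt {c c' : Fin p → Z} {T : Fin p → Finset Z} {k j : Fin p} (hc : ∀ i < k, c i = c' i)
    (hj : j < k) : PP c T j = PP c' T j := by
  unfold PP
  refine prod_congr rfl fun i _ => prod_congr rfl fun d _ => ?_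
  unfold gg
  by_cases h : i ≤ j
  · rw [hc i (lt_of_le_of_lt h hj)]
  · rw [if_neg h, if_neg h]

lemma AA_congr {c c' : Fin p → Z} {T : Fin p → Finset Z} {k : Fin p} (hc : ∀ i < k, c i = c' i) :
    AA c T k = AA c' T k := by
  unfold AA
  refine prod_congr rfl fun i _ => ?_
  by_cases h : i < k
  · rw [if_pos h, if_pos h, hc i h]
  · rw [if_neg h, if_neg h]

lemma key_id (c : Fin p → Z) (T : Finset Z) (k : Fin p) :
    (∏ d ∈ T, (if d = c k then 0 else rr p k)) +
      ((p - 1 - k : ℕ) : ℝ) * ∏ d ∈ T, (if d = c k then 1 else rr p k) =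
      (p - k) * rr p k ^ T.card := by
  have hk : (k : ℕ) + 1 ≤ p := k.2
  have hk' : ((k : ℕ) : ℝ) + 1 ≤ p := by exact_mod_cast hk
  have hcast : ((p - 1 - k : ℕ) : ℝ) = p - k - 1 := by
    rw [Nat.sub_sub, Nat.cast_sub (by omega)]
    push_cast
    ring
  rw [hcast]
  by_cases hT : c k ∈ T
  · have h0 : ∏ d ∈ T, (if d = c k then (0 : ℝ) else rr p k) = 0 := prod_eq_zero hT (if_pos rfl)
    rw [h0, zero_add, ← mul_prod_erase T _ hT, if_pos rfl, one_mul]
    have h1 : ∏ d ∈ T.erase (c k), (if d = c k then 1 else rr p k) = rr p k ^ (T.card - 1) := by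
      rw [← card_erase_of_mem hT, ← prod_const]
      exact prod_congr rfl fun d hd => if_neg (ne_of_mem_erase hd)
    have h2 : T.card = T.card - 1 + 1 := by
      have := card_pos.2 ⟨_, hT⟩
      omega
    rw [h1]
    conv_rhs => rw [h2, pow_succ]
    unfold rr
    have h3 : (p : ℝ) - k ≠ 0 := by linarith
    field_simp
  · have h1 : ∀ x : ℝ, ∏ d ∈ T, (if d = c k then x else rr p k) = rr p k ^ T.card := by
      intro x
      rw [← prod_const]
      exact prod_congr rfl fun d hd => if_neg (by rintro rfl; exact hT hd)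
    rw [h1, h1]
    ring

/-- The sum over the parts does not depend on the hidden diagonals of the last phases, if they
contain no edges except possibly in the first of these phases. -/
lemma sum_PP {c c' : Fin p → Z} {T : Fin p → Finset Z} {k : Fin p} (hT : ∀ i, k < i → T i = ∅)
    (hc : ∀ i < k, c i = c' i) : ∑ j, PP c T j = ∑ j, PP c' T j := by
  have key : ∀ c : Fin p → Z, ∑ j, PP c T j = (∑ j ∈ univ.filter (· < k), PP c T j) +
      AA c T k * ((p - k) * rr p k ^ (T k).card) := by
    intro c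
    have h1 : ∑ j, PP c T j = (∑ j ∈ univ.filter (· < k), PP c T j) +
        ∑ j ∈ univ.filter (fun j => ¬ j < k), PP c T j :=
      (sum_filter_add_sum_filter_not univ _ _).symm
    have h2 : univ.filter (fun j => ¬ j < k) = insert k (Ioi k) := by
      ext j
      simp only [mem_filter, mem_univ, true_and, mem_insert, mem_Ioi, not_lt]
      constructor
      · intro h
        rcases eq_or_lt_of_le h with h | h
        · exact Or.inl h.symm
        · exact Or.inr h
      · rintro (h | h)
        · exact h.symm.le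
        · exact h.le
    rw [h1, h2, sum_insert (by simp), PP_eq hT,
      sum_congr rfl fun j hj => PP_gt hT (mem_Ioi.1 hj), sum_const, Fin.card_Ioi, nsmul_eq_mul,
      ← key_id c (T k) k]
    ring
  rw [key c, key c', AA_congr hc, sum_congr rfl fun j hj => PP_lt hc (mem_filter.1 hj).2]

lemma prod_rr (j : Fin p) : (∏ i : Fin p, if i ≤ j then rr p i else 1) = ((p : ℝ) - 1 - j) / p := by
  have hp : 0 < p := j.pos
  have hp0 : (0 : ℝ) < p := by exact_mod_cast hp
  have h1 : ∀ m : ℕ, m ≤ j + 1 → ∏ i ∈ range m, (if i ≤ j then rr p i else 1) = ((p : ℝ) - m) / p := by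
    intro m
    induction m with
    | zero => intro _; simp [hp0.ne']
    | succ m ih =>
      intro hm
      rw [prod_range_succ, ih (by omega), if_pos (by omega)]
      unfold rr
      have h2 : (m : ℝ) + 1 ≤ p := by
        have := j.2
        exact_mod_cast (by omega : m + 1 ≤ p)
      have h3 : (p : ℝ) - m ≠ 0 := by linarith
      push_cast
      field_simp
      ring
  have h2 : (∏ i : Fin p, if i ≤ j then rr p i else 1) =
      ∏ i ∈ range p, (if i ≤ (j : ℕ) then rr p i else 1) := by
    rw [← Fin.prod_univ_eq_prod_range (fun i => if i ≤ (j : ℕ) then rr p i else 1) p]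
    refine prod_congr rfl fun i _ => ?_
    simp only [Fin.le_def]
  rw [h2, ← prod_subset (range_subset_range.2 (show (j : ℕ) + 1 ≤ p from j.2)), h1 _ le_rfl]
  · push_cast
    congr 1
    ring
  · intro i _ hi
    rw [mem_range] at hi
    rw [if_neg (by omega)]

lemma PP_ge {c : Fin p → Z} {T : Fin p → Finset Z} (hT : ∀ i, (T i).card ≤ 1) {j : Fin p}
    (hj : c j ∉ T j) : ((p : ℝ) - 1 - j) / p ≤ PP c T j := by
  rw [← prod_rr]
  unfold PP
  refine prod_le_prod (fun i _ => ?_) fun i _ => ?_
  · split_ifs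
    · exact rr_nonneg i
    · norm_num
  · rcases Nat.le_one_iff_eq_zero_or_eq_one.1 (hT i) with h | h
    · rw [card_eq_zero.1 h, prod_empty]
      split_ifs
      · exact rr_le_one i
      · exact le_rfl
    · obtain ⟨d, hd⟩ := card_eq_one.1 h
      rw [hd, prod_singleton]
      unfold gg
      by_cases hij : i ≤ j
      · rw [if_pos hij, if_pos hij]
        by_cases hdc : d = c i
        · rw [if_pos hdc]
          by_cases hij' : i = j
          · exfalso
            subst hij'
            exact hj (by rw [hd, hdc]; exact mem_singleton_self _)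
          · rw [if_neg hij']
            exact rr_le_one i
        · rw [if_neg hdc]
      · rw [if_neg hij, if_neg hij]

/-- The value of a matching at one vertex. -/
lemma sum_le {c : Fin p → Z} {T : Fin p → Finset Z} (hT : ∀ i, (T i).card ≤ 1) :
    ∑ j, (1 - PP c T j) ≤ ((p : ℝ) + 1) / 2 +
      ∑ j : Fin p, if (j : ℕ) + 1 < p ∧ c j ∈ T j then 1 else 0 := by
  rcases Nat.eq_zero_or_pos p with rfl | hp
  · simp
  have hp0 : (0 : ℝ) < p := by exact_mod_cast hp
  have h1 : ∑ j : Fin p, (((j : ℕ) : ℝ) + 1) / p = ((p : ℝ) + 1) / 2 := by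
    have h2 : ∀ m : ℕ, ∑ j ∈ range m, ((j : ℝ) + 1) / p = (m : ℝ) * (m + 1) / 2 / p := by
      intro m
      induction m with
      | zero => simp
      | succ m ih =>
        rw [sum_range_succ, ih]
        push_cast
        field_simp
        ring
    rw [Fin.sum_univ_eq_sum_range (fun j => ((j : ℝ) + 1) / p) p, h2]
    field_simp
  rw [← h1, ← sum_add_distrib]
  refine sum_le_sum fun j _ => ?_
  have hj : ((j : ℕ) : ℝ) + 1 ≤ p := by exact_mod_cast j.2
  by_cases hc : c j ∈ T j
  · have h2 := PP_nonneg c T j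
    by_cases hjp : (j : ℕ) + 1 < p
    · rw [if_pos ⟨hjp, hc⟩]
      have : 0 ≤ (((j : ℕ) : ℝ) + 1) / p := by positivity
      linarith
    · rw [if_neg fun h => hjp h.1]
      have h3 : (j : ℕ) + 1 = p := by have := j.2; omega
      have h4 : ((j : ℕ) : ℝ) + 1 = p := by exact_mod_cast h3
      rw [h4, div_self hp0.ne']
      linarith
  · rw [if_neg fun h => hc h.2]
    have h2 := PP_ge hT hc
    have h3 : (((j : ℕ) : ℝ) + 1) / p = 1 - ((p : ℝ) - 1 - j) / p := by
      field_simp
      ring
    rw [h3]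
    linarith

end phases

end Pool.Agent.W977.SM
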