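import Pool.Agent.W977.SM.Fn
import Pool.Agent.W977.SM.Count

/-!
# The hard streams and the lower bound
-/

open Finset

namespace Pool.Agent.W977.SM

section inst

variable {V : Type} [DecidableEq V] {p : ℕ} {Z : Type} [Fintype Z] [DecidableEq Z] [AddCommGroup Z]
  (φ : Fin p × (Z ⊕ Z × Bool) → V)

/-- The potential edge of phase `i` at the left vertex `u` on the diagonal `d`, with the bit `b`. -/
def ed (i : Fin p) (d u : Z) (b : Bool) : Sym2 V := s(φ (i, Sum.inl u), φ (i, Sum.inr (u + d, b)))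

variable {φ}

lemma ed_inj (hφ : Function.Injective φ) {i i' : Fin p} {d d' u u' : Z} {b b' : Bool}
    (h : ed φ i d u b = ed φ i' d' u' b') : i = i' ∧ d = d' ∧ u = u' ∧ b = b' := by
  unfold ed at h
  rw [Sym2.eq_iff] at h
  rcases h with ⟨h1, h2⟩ | ⟨h1, h2⟩
  · have h1 := hφ h1
    have h2 := hφ h2
    simp only [Prod.mk.injEq, Sum.inl.injEq, Sum.inr.injEq] at h1 h2
    obtain ⟨h3, rfl⟩ := h1
    exact ⟨h3, by simpa using h2.2.1, rfl, h2.2.2⟩
  · have h1 := hφ h1
    simp at h1

variable (φ)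

/-- The edges of phase `i`. -/
noncomputable def phase (i : Fin p) (y : Z → Z → Bool) : List (Sym2 V) :=
  (univ : Finset (Z × Z)).toList.map fun q => ed φ i q.1 q.2 (y q.1 q.2)

/-- The edges of the phases in `l`. -/
noncomputable def strm (l : List (Fin p)) (y : Fin p → Z → Z → Bool) : List (Sym2 V) :=
  l.flatMap fun i => phase φ i (y i)

variable {φ}

lemma mem_strm {l : List (Fin p)} {y : Fin p → Z → Z → Bool} {e : Sym2 V} :
    e ∈ strm φ l y ↔ ∃ i ∈ l, ∃ d u, e = ed φ i d u (y i d u) := by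
  simp only [strm, phase, List.mem_flatMap, List.mem_map, mem_toList, mem_univ, true_and,
    Prod.exists]
  constructor
  · rintro ⟨i, hi, d, u, rfl⟩; exact ⟨i, hi, d, u, rfl⟩
  · rintro ⟨i, hi, d, u, rfl⟩; exact ⟨i, hi, d, u, rfl⟩

lemma isStream_strm (hφ : Function.Injective φ) {l : List (Fin p)} (hl : l.Nodup)
    (y : Fin p → Z → Z → Bool) : IsStream (strm φ l y) := by
  constructor
  · unfold strm
    rw [List.nodup_flatMap]
    constructor
    · intro i _
      refine List.Nodup.map ?_ (nodup_toList _)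
      rintro ⟨d, u⟩ ⟨d', u'⟩ h
      have := ed_inj hφ h
      exact Prod.ext this.2.1 this.2.2.1
    · refine hl.imp ?_
      intro i i' hii' e he he'
      simp only [phase, List.mem_map] at he he'
      obtain ⟨q, _, rfl⟩ := he
      obtain ⟨q', _, h⟩ := he'
      exact hii' (ed_inj hφ h).1.symm
  · intro e he hd
    obtain ⟨i, _, d, u, rfl⟩ := mem_strm.1 he
    unfold ed at hd
    rw [Sym2.mk_isDiag_iff] at hd
    have := hφ hd
    simp at this

variable (φ)

/-- The hard objective function. -/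
noncomputable def fc (c : Fin p → Z) (S : Finset (Sym2 V)) : ℝ :=
  ∑ t : Z × Fin p, (1 - pw (fun k : Fin p × Z × Bool => ed φ k.1 k.2.1 t.1 k.2.2)
    (fun k => gg c t.2 k.1 k.2.1) S)

lemma monoSub_fc (c : Fin p → Z) : MonoSub (fc φ c) :=
  monoSub_of (fun (t : Z × Fin p) (k : Fin p × Z × Bool) => ed φ k.1 k.2.1 t.1 k.2.2)
    (fun t k => gg c t.2 k.1 k.2.1) (fun _ _ => gg_nonneg _ _ _ _) (fun _ _ => gg_le_one _ _ _ _)

/-- The diagonals of the edges of `S` at the left vertex `u` in each phase. -/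
def TT (y : Fin p → Z → Z → Bool) (S : Finset (Sym2 V)) (u : Z) (i : Fin p) : Finset Z :=
  univ.filter fun d => ed φ i d u (y i d u) ∈ S

variable {φ}

lemma pw_eq (hφ : Function.Injective φ) {l : List (Fin p)} {y : Fin p → Z → Z → Bool}
    {S : Finset (Sym2 V)} (hS : S ⊆ (strm φ l y).toFinset) (c : Fin p → Z) (u : Z) (j : Fin p) :
    pw (fun k : Fin p × Z × Bool => ed φ k.1 k.2.1 u k.2.2) (fun k => gg c j k.1 k.2.1) S =
      PP c (TT φ y S u) j := by
  unfold pw PP
  rw [Fintype.prod_prod_type]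
  refine prod_congr rfl fun i _ => ?_
  rw [Fintype.prod_prod_type]
  unfold TT
  rw [prod_filter]
  refine prod_congr rfl fun d _ => ?_
  simp only
  rw [← mul_prod_erase univ _ (mem_univ (y i d u)), prod_eq_one, mul_one]
  intro b hb
  rw [if_neg]
  intro h
  obtain ⟨i', _, d', u', h'⟩ := mem_strm.1 (List.mem_toFinset.1 (hS h))
  obtain ⟨rfl, rfl, rfl, rfl⟩ := ed_inj hφ h'
  exact ne_of_mem_erase hb rfl

lemma fc_eq (hφ : Function.Injective φ) {l : List (Fin p)} {y : Fin p → Z → Z → Bool}
    {S : Finset (Sym2 V)} (hS : S ⊆ (strm φ l y).toFinset) (c : Fin p → Z) :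
    fc φ c S = ∑ u, ∑ j, (1 - PP c (TT φ y S u) j) := by
  unfold fc
  rw [Fintype.sum_prod_type]
  refine sum_congr rfl fun u _ => sum_congr rfl fun j _ => ?_
  rw [pw_eq hφ hS]

/-- The hidden diagonals of the phases from `k` on cannot be seen before the end of phase `k`. -/
lemma fc_congr (hφ : Function.Injective φ) {l : List (Fin p)} {y : Fin p → Z → Z → Bool}
    {S : Finset (Sym2 V)} (hS : S ⊆ (strm φ l y).toFinset) {c c' : Fin p → Z} {k : Fin p}
    (hl : ∀ i ∈ l, i ≤ k) (hc : ∀ i < k, c i = c' i) : fc φ c S = fc φ c' S := by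
  rw [fc_eq hφ hS, fc_eq hφ hS]
  refine sum_congr rfl fun u _ => ?_
  rw [sum_sub_distrib, sum_sub_distrib, sum_PP (k := k) ?_ hc]
  intro i hi
  unfold TT
  rw [filter_eq_empty_iff]
  intro d _ h
  obtain ⟨i', hi', d', u', h'⟩ := mem_strm.1 (List.mem_toFinset.1 (hS h))
  obtain ⟨rfl, _⟩ := ed_inj hφ h'
  exact absurd (hl i hi') (not_le.2 hi)

lemma fc_le (hφ : Function.Injective φ) {l : List (Fin p)} {y : Fin p → Z → Z → Bool}
    {M : Finset (Sym2 V)} (hM : M ⊆ (strm φ l y).toFinset) (hm : IsMatching M) (c : Fin p → Z) :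
    fc φ c M ≤ Fintype.card Z * (((p : ℝ) + 1) / 2) +
      ∑ j : Fin p, if (j : ℕ) + 1 < p then
        ((univ.filter fun u => ed φ j (c j) u (y j (c j) u) ∈ M).card : ℝ) else 0 := by
  rw [fc_eq hφ hM]
  have h1 : ∀ u i, (TT φ y M u i).card ≤ 1 := by
    intro u i
    rw [card_le_one]
    intro d hd d' hd'
    simp only [TT, mem_filter, mem_univ, true_and] at hd hd'
    have h := hm _ hd _ hd' (φ (i, Sum.inl u)) (by unfold ed; simp) (by unfold ed; simp)
    exact (ed_inj hφ h).2.1
  refine (sum_le_sum fun u _ => sum_le (h1 u)).trans ?_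
  rw [sum_add_distrib, sum_const, card_univ, nsmul_eq_mul, sum_comm]
  refine add_le_add le_rfl (sum_le_sum fun j _ => ?_)
  by_cases hj : (j : ℕ) + 1 < p
  · rw [if_pos hj, card_filter]
    push_cast
    refine sum_le_sum fun u _ => le_of_eq ?_
    simp only [hj, true_and, TT, mem_filter, mem_univ]
  · rw [if_neg hj]
    refine le_of_eq (sum_eq_zero fun u _ => ?_)
    rw [if_neg fun h => hj h.1]

/-- The hidden matching. -/
def star (φ : Fin p × (Z ⊕ Z × Bool) → V) (y : Fin p → Z → Z → Bool) (c : Fin p → Z) :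
    Finset (Sym2 V) :=
  univ.image fun q : Fin p × Z => ed φ q.1 (c q.1) q.2 (y q.1 (c q.1) q.2)

lemma star_sub (y : Fin p → Z → Z → Bool) (c : Fin p → Z) :
    star φ y c ⊆ (strm φ (List.finRange p) y).toFinset := by
  intro e he
  simp only [star, mem_image, mem_univ, true_and] at he
  obtain ⟨q, rfl⟩ := he
  rw [List.mem_toFinset, mem_strm]
  exact ⟨q.1, List.mem_finRange _, _, _, rfl⟩

lemma star_matching (hφ : Function.Injective φ) (y : Fin p → Z → Z → Bool) (c : Fin p → Z) :
    IsMatching (star φ y c) := by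
  intro e he e' he' v hv hv'
  simp only [star, mem_image, mem_univ, true_and] at he he'
  obtain ⟨⟨i, u⟩, rfl⟩ := he
  obtain ⟨⟨i', u'⟩, rfl⟩ := he'
  simp only [ed, Sym2.mem_iff] at hv hv'
  rcases hv with rfl | rfl <;> rcases hv' with h | h
  · have := hφ h
    simp only [Prod.mk.injEq, Sum.inl.injEq] at this
    obtain ⟨rfl, rfl⟩ := this
    rfl
  · have := hφ h
    simp at this
  · have := hφ h
    simp at this
  · have := hφ h
    simp only [Prod.mk.injEq, Sum.inr.injEq] at this
    obtain ⟨rfl, h1, _⟩ := this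
    have h2 : u = u' := by simpa using h1
    rw [h2]

lemma fc_star (hφ : Function.Injective φ) (y : Fin p → Z → Z → Bool) (c : Fin p → Z) :
    fc φ c (star φ y c) = Fintype.card Z * p := by
  rw [fc_eq hφ (star_sub y c)]
  have h1 : ∀ u j, PP c (TT φ y (star φ y c) u) j = 0 := by
    intro u j
    unfold PP
    refine prod_eq_zero (mem_univ j) (prod_eq_zero (i := c j) ?_ ?_)
    · simp only [TT, star, mem_filter, mem_univ, true_and, mem_image]
      exact ⟨(j, u), rfl⟩
    · simp [gg]
  simp [h1]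

end inst

section alg

variable {V : Type} [DecidableEq V] {p : ℕ} {Z : Type} [Fintype Z] [DecidableEq Z] [AddCommGroup Z]
  {φ : Fin p × (Z ⊕ Z × Bool) → V} {Ω : Type} {b : ℕ}

open Classical in
/-- In every phase few correct edges of the hidden matching are in the output. -/
lemma phase_bound (hφ : Function.Injective φ) (A : Alg V Ω b) (hA : A.Legal) (ω : Ω) (α : ℝ)
    {K : ℕ} (hK : 0 < K) (j : Fin p) (w : Fin p → (Z → Z → Bool) × Z) :
    (∑ z : (Z → Z → Bool) × Z,
      let w' := Function.update w j z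
      let y := fun i => (w' i).1
      let c := fun i => (w' i).2
      let M := A.output ω (fc φ c) (strm φ (List.finRange p) y)
      if Success α (fc φ c) (strm φ (List.finRange p) y) M ∧
        K ≤ (univ.filter fun u => ed φ j (c j) u (y j (c j) u) ∈ M).card then (1 : ℝ) else 0) ≤
      (b + Fintype.card Z + 1) * 2 ^ (Fintype.card Z * Fintype.card Z) / K := by
  set pre := (List.finRange p).take (j + 1) with hpre
  set post := (List.finRange p).drop (j + 1) with hpost
  have hsplit : List.finRange p = pre ++ post := (List.take_append_drop _ _).symm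
  have hpre1 : ∀ i ∈ pre, i ≤ j := by
    intro i hi
    obtain ⟨m, hm, rfl⟩ := List.mem_take_iff_getElem.1 hi
    rw [Fin.le_def]
    simp only [List.getElem_finRange, Fin.val_cast]
    omega
  have hpost1 : ∀ i ∈ post, j < i := by
    intro i hi
    obtain ⟨m, hm, rfl⟩ := List.mem_drop_iff_getElem.1 hi
    rw [Fin.lt_def]
    simp only [List.getElem_finRange, Fin.val_cast]
    omega
  have hpren : pre.Nodup := (List.nodup_finRange p).sublist (List.take_sublist _ _)
  set y₀ : Fin p → Z → Z → Bool := fun i => (w i).1 with hy₀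
  set c₀ : Fin p → Z := fun i => (w i).2 with hc₀
  let Y : (Z → Z → Bool) → Fin p → Z → Z → Bool := fun y => Function.update y₀ j y
  let C : Z → Fin p → Z := fun c => Function.update c₀ j c
  let Φ : (Z → Z → Bool) → Fin (2 ^ b) := fun y => A.run ω (fc φ c₀) (strm φ pre (Y y))
  let Mq : Fin (2 ^ b) → Z → Finset (Sym2 V) := fun q c =>
    A.out ω ((strm φ post y₀).foldl (fun q e => A.step ω q e (fc φ (C c))) q) (fc φ (C c))
  have hout : ∀ y c, A.output ω (fc φ (C c)) (strm φ (List.finRange p) (Y y)) = Mq (Φ y) c := by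
    intro y c
    have h1 : strm φ (List.finRange p) (Y y) = strm φ pre (Y y) ++ strm φ post y₀ := by
      rw [hsplit]
      unfold strm
      rw [List.flatMap_append]
      congr 1
      refine List.flatMap_congr ?_
      intro i hi
      simp only [Y, Function.update_of_ne (hpost1 i hi).ne']
    have h2 : A.run ω (fc φ (C c)) (strm φ pre (Y y)) = Φ y := by
      refine hA ω _ _ _ (isStream_strm hφ hpren _) (monoSub_fc φ _) (monoSub_fc φ _) ?_
      intro S hS
      refine fc_congr hφ hS (k := j) hpre1 ?_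
      intro i hi
      simp only [C, Function.update_of_ne hi.ne]
    unfold Alg.output
    rw [h1]
    unfold Alg.run at h2 ⊢
    rw [List.foldl_append, h2]
  let good : (Z → Z → Bool) → Z → Prop := fun y c =>
    Success α (fc φ (C c)) (strm φ (List.finRange p) (Y y)) (Mq (Φ y) c) ∧
      K ≤ (univ.filter fun u => ed φ j c u (y c u) ∈ Mq (Φ y) c).card
  let Cl : Fin (2 ^ b) → Z → Finset Z := fun q c =>
    univ.filter fun u => ∃ x, ed φ j c u x ∈ Mq q c
  let β : Fin (2 ^ b) → Z → Z → Bool := fun q c u => decide (ed φ j c u true ∈ Mq q c)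
  have hcount := count (K := K) Φ Cl β good (by
    rintro y c ⟨⟨hs, -, -⟩, hk⟩
    constructor
    · refine hk.trans (card_le_card ?_)
      intro u hu
      simp only [mem_filter, mem_univ, true_and] at hu
      simp only [Cl, mem_filter, mem_univ, true_and]
      exact ⟨_, hu⟩
    · intro u hu
      simp only [Cl, mem_filter, mem_univ, true_and] at hu
      have key : ∀ x, ed φ j c u x ∈ Mq (Φ y) c → y c u = x := by
        intro x hx
        obtain ⟨i', _, d', u', h'⟩ := mem_strm.1 (List.mem_toFinset.1 (hs hx))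
        obtain ⟨rfl, rfl, rfl, rfl⟩ := ed_inj hφ h'
        simp [Y]
      obtain ⟨x, hx⟩ := hu
      have hyx := key x hx
      simp only [β]
      cases x with
      | true => rw [hyx]; simp [hx]
      | false =>
        rw [hyx]
        symm
        rw [decide_eq_false_iff_not]
        intro h
        have := key true h
        rw [hyx] at this
        exact absurd this (by decide))
  have hK0 : (0 : ℝ) < K := by exact_mod_cast hK
  rw [le_div_iff₀ hK0, Fintype.sum_prod_type]
  have hsum : (∑ y : Z → Z → Bool, ∑ c : Z,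
      (let w' := Function.update w j (y, c)
      let y := fun i => (w' i).1
      let c := fun i => (w' i).2
      let M := A.output ω (fc φ c) (strm φ (List.finRange p) y)
      if Success α (fc φ c) (strm φ (List.finRange p) y) M ∧
        K ≤ (univ.filter fun u => ed φ j (c j) u (y j (c j) u) ∈ M).card then (1 : ℝ) else 0)) =
      ((∑ y : Z → Z → Bool, (univ.filter fun c => good y c).card : ℕ) : ℝ) := by
    push_cast
    refine sum_congr rfl fun y _ => ?_
    rw [card_filter]
    push_cast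
    refine sum_congr rfl fun c _ => ?_
    have e1 : (fun i => (Function.update w j (y, c) i).1) = Y y := by
      funext i
      by_cases hi : i = j
      · subst hi; simp [Y]
      · simp [Y, Function.update_of_ne hi, y₀]
    have e2 : (fun i => (Function.update w j (y, c) i).2) = C c := by
      funext i
      by_cases hi : i = j
      · subst hi; simp [C]
      · simp [C, Function.update_of_ne hi, c₀]
    simp only [e1, e2, hout, Function.update_self]
    exact if_congr Iff.rfl rfl rfl
  rw [hsum]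
  have h2 : ((∑ y : Z → Z → Bool, (univ.filter fun c => good y c).card : ℕ) : ℝ) * K =
      ((K * ∑ y : Z → Z → Bool, (univ.filter fun c => good y c).card : ℕ) : ℝ) := by
    push_cast
    ring
  rw [h2]
  exact_mod_cast hcount

open Classical in
/-- A hard stream exists. -/
theorem exists_hard [Nonempty Z] (hφ : Function.Injective φ) [Fintype Ω] (μ : Ω → ℝ)
    (hμ0 : ∀ ω, 0 ≤ μ ω) (hμ1 : ∑ ω, μ ω = 1) (A : Alg V Ω b) (hA : A.Legal) {α : ℝ} (hα : 0 < α)
    {K : ℕ} (hK : 0 < K)
    (hKα : α * (Fintype.card Z * (((p : ℝ) + 1) / 2) + p * ((K : ℝ) - 1)) < Fintype.card Z * p) :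
    ∃ (h : List (Sym2 V)) (f : Finset (Sym2 V) → ℝ), IsStream h ∧ MonoSub f ∧
      prob μ (fun ω => Success α f h (A.output ω f h)) ≤
        p * (b + Fintype.card Z + 1) / (K * Fintype.card Z) := by
  set N := Fintype.card Z with hN
  have hN0 : (0 : ℝ) < N := by exact_mod_cast Fintype.card_pos
  have hK0 : (0 : ℝ) < K := by exact_mod_cast hK
  let W := Fin p → (Z → Z → Bool) × Z
  let ys : W → Fin p → Z → Z → Bool := fun w i => (w i).1
  let cs : W → Fin p → Z := fun w i => (w i).2
  let st : W → List (Sym2 V) := fun w => strm φ (List.finRange p) (ys w)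
  let MM : Ω → W → Finset (Sym2 V) := fun ω w => A.output ω (fc φ (cs w)) (st w)
  let good : Fin p → Ω → W → Prop := fun j ω w => Success α (fc φ (cs w)) (st w) (MM ω w) ∧
    K ≤ (univ.filter fun u => ed φ j (cs w j) u (ys w j (cs w j) u) ∈ MM ω w).card
  have h1 : ∀ j ω, ∑ w : W, (if good j ω w then (1 : ℝ) else 0) ≤
      (b + N + 1) / (K * N) * Fintype.card W := by
    intro j ω
    have h2 := sum_update (fun w : W => if good j ω w then (1 : ℝ) else 0) j
      (fun w => phase_bound hφ A hA ω α hK j w)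
    have h3 : (Fintype.card ((Z → Z → Bool) × Z) : ℝ) = 2 ^ (N * N) * N := by
      rw [Fintype.card_prod]
      simp only [Fintype.card_fun, Fintype.card_bool, ← hN]
      rw [← pow_mul]
      push_cast
      ring
    rw [h3] at h2
    have h4 : (0 : ℝ) < 2 ^ (N * N) * N := by positivity
    have h5 : ∑ w : W, (if good j ω w then (1 : ℝ) else 0) ≤
        (b + N + 1) * 2 ^ (N * N) / K * Fintype.card W / (2 ^ (N * N) * N) := by
      rw [le_div_iff₀ h4, mul_comm]
      exact h2
    refine h5.trans (le_of_eq ?_)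
    field_simp
  have h2 : ∀ ω w, (if Success α (fc φ (cs w)) (st w) (MM ω w) then (1 : ℝ) else 0) ≤
      ∑ j, (if good j ω w then (1 : ℝ) else 0) := by
    intro ω w
    by_cases hs : Success α (fc φ (cs w)) (st w) (MM ω w)
    · rw [if_pos hs]
      by_contra hcon
      have hno : ∀ j, ¬ good j ω w := by
        intro j hj
        apply hcon
        refine le_trans ?_ (single_le_sum (f := fun j => if good j ω w then (1 : ℝ) else 0)
          (fun j _ => by positivity) (mem_univ j))
        rw [if_pos hj]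
      have h3 := hs.2.2 _ (star_sub (ys w) (cs w)) (star_matching hφ _ _)
      rw [fc_star hφ] at h3
      have h4 := fc_le hφ hs.1 hs.2.1 (cs w)
      have h5 : (∑ j : Fin p, if (j : ℕ) + 1 < p then
          ((univ.filter fun u => ed φ j (cs w j) u (ys w j (cs w j) u) ∈ MM ω w).card : ℝ)
            else 0) ≤ ∑ _j : Fin p, ((K : ℝ) - 1) := by
        refine sum_le_sum fun j _ => ?_
        have h6 : (univ.filter fun u => ed φ j (cs w j) u (ys w j (cs w j) u) ∈ MM ω w).card < K := by
          by_contra h7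
          exact hno j ⟨hs, not_lt.1 h7⟩
        have h7 : ((univ.filter fun u => ed φ j (cs w j) u (ys w j (cs w j) u) ∈ MM ω w).card : ℝ)
            + 1 ≤ K := by exact_mod_cast h6
        have h8 : (1 : ℝ) ≤ K := by exact_mod_cast hK
        split_ifs <;> linarith
      rw [sum_const, card_univ, Fintype.card_fin, nsmul_eq_mul] at h5
      have h6 : α * fc φ (cs w) (MM ω w) ≤ α * (N * (((p : ℝ) + 1) / 2) + p * ((K : ℝ) - 1)) :=
        mul_le_mul_of_nonneg_left (by linarith) hα.le
      linarith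
    · rw [if_neg hs]
      exact sum_nonneg fun j _ => by positivity
  have h3 : ∑ w : W, ∑ ω, (if Success α (fc φ (cs w)) (st w) (MM ω w) then μ ω else 0) ≤
      ∑ _w : W, (p * (b + N + 1) / (K * N) : ℝ) := by
    calc ∑ w : W, ∑ ω, (if Success α (fc φ (cs w)) (st w) (MM ω w) then μ ω else 0)
        ≤ ∑ w : W, ∑ ω, μ ω * ∑ j, (if good j ω w then (1 : ℝ) else 0) := by
          refine sum_le_sum fun w _ => sum_le_sum fun ω _ => ?_
          have h4 := mul_le_mul_of_nonneg_left (h2 ω w) (hμ0 ω)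
          refine le_trans (le_of_eq ?_) h4
          split_ifs <;> ring
      _ = ∑ ω, μ ω * ∑ j, ∑ w : W, (if good j ω w then (1 : ℝ) else 0) := by
          rw [sum_comm]
          refine sum_congr rfl fun ω _ => ?_
          rw [← mul_sum, sum_comm]
      _ ≤ ∑ ω, μ ω * ∑ _j : Fin p, (b + N + 1) / (K * N) * (Fintype.card W : ℝ) := by
          refine sum_le_sum fun ω _ => mul_le_mul_of_nonneg_left ?_ (hμ0 ω)
          exact sum_le_sum fun j _ => h1 j ω
      _ = ∑ _w : W, (p * (b + N + 1) / (K * N) : ℝ) := by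
          rw [← sum_mul, hμ1, one_mul, sum_const, sum_const, card_univ, card_univ,
            Fintype.card_fin, nsmul_eq_mul, nsmul_eq_mul]
          ring
  have hW : (univ : Finset W).Nonempty := by
    obtain ⟨z⟩ := ‹Nonempty Z›
    exact ⟨fun _ => (fun _ _ => false, z), mem_univ _⟩
  obtain ⟨w, _, hw⟩ := exists_le_of_sum_le hW h3
  exact ⟨st w, fc φ (cs w), isStream_strm hφ (List.nodup_finRange p) _, monoSub_fc φ _, hw⟩

end alg

/-- The lower bound. -/
theorem lower_bound {α η : ℝ} (hα1 : 1 ≤ α) (hα2 : α < 2) (hη : 0 < η) : ∃ c : ℝ, 0 < c ∧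
    ∃ n₀ : ℕ, ∀ n b : ℕ, n₀ ≤ n → (b : ℝ) ≤ c * n ^ 2 →
      ∀ (Ω : Type) [Fintype Ω] (μ : Ω → ℝ), (∀ ω, 0 ≤ μ ω) → ∑ ω, μ ω = 1 →
      ∀ A : Alg (Fin n) Ω b, A.Legal → ∃ (h : List (Sym2 (Fin n))) (f : Finset (Sym2 (Fin n)) → ℝ),
        IsStream h ∧ MonoSub f ∧ prob μ (fun ω => Success α f h (A.output ω f h)) ≤ η := by
  have hα0 : 0 < α := by linarith
  have hgap : 0 < 1 / α - 1 / 2 := by
    rw [sub_pos]
    exact one_div_lt_one_div_of_lt hα0 hα2
  obtain ⟨p, hp⟩ := exists_nat_gt (1 / (1 / α - 1 / 2))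
  have hp0 : (0 : ℝ) < p := lt_trans (by positivity) hp
  have hp1 : 0 < p := by exact_mod_cast hp0
  have hp2 : 1 / (p : ℝ) < 1 / α - 1 / 2 := by
    rw [div_lt_iff₀ hp0]
    rwa [div_lt_iff₀ hgap, mul_comm] at hp
  set γ : ℝ := 1 / α - 1 / 2 - 1 / (2 * p) with hγ
  have hγ0 : 0 < γ := by
    have : 1 / (2 * (p : ℝ)) = 1 / p / 2 := by field_simp
    have h2 : 0 < 1 / (p : ℝ) := by positivity
    rw [hγ, this]
    linarith
  refine ⟨η * γ / (72 * p ^ 3), by positivity, max (6 * p) ⌈24 * (p : ℝ) ^ 2 / (γ * η)⌉₊, ?_⟩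
  intro n b hn hb Ω _ μ hμ0 hμ1 A hA
  have hn1 : 6 * p ≤ n := (le_max_left _ _).trans hn
  have hn2 : 24 * (p : ℝ) ^ 2 / (γ * η) ≤ n :=
    (Nat.le_ceil _).trans (by exact_mod_cast (le_max_right _ _).trans hn)
  set N := n / (3 * p) with hN
  have hN1 : n ≤ 6 * p * N := by
    have h1 := Nat.div_add_mod n (3 * p)
    have h2 := Nat.mod_lt n (show 0 < 3 * p by omega)
    have h3 : 2 ≤ N := by
      rw [hN, Nat.le_div_iff_mul_le (by omega)]
      linarith
    rw [← hN] at h1
    nlinarith
  have hn0 : 0 < n := by omega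
  have hN0 : 0 < N := by
    rcases Nat.eq_zero_or_pos N with h | h
    · rw [h] at hN1; omega
    · exact h
  have : NeZero N := ⟨hN0.ne'⟩
  have hcard : Fintype.card (ZMod N) = N := ZMod.card N
  obtain ⟨φ⟩ : Nonempty (Fin p × (ZMod N ⊕ ZMod N × Bool) ↪ Fin n) := by
    refine Function.Embedding.nonempty_of_card_le ?_
    rw [Fintype.card_prod, Fintype.card_sum, Fintype.card_prod, hcard, Fintype.card_bool,
      Fintype.card_fin, Fintype.card_fin]
    calc p * (N + N * 2) = 3 * p * N := by ring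
      _ ≤ n := Nat.mul_div_le n (3 * p)
  have hNr : (0 : ℝ) < N := by exact_mod_cast hN0
  have hK1 : γ * N ≤ ⌈γ * N⌉₊ := Nat.le_ceil _
  have hK2 : (⌈γ * N⌉₊ : ℝ) < γ * N + 1 := Nat.ceil_lt_add_one (by positivity)
  have hK0 : 0 < ⌈γ * N⌉₊ := Nat.ceil_pos.2 (by positivity)
  obtain ⟨h, f, hs, hf, hpr⟩ := exists_hard φ.injective μ hμ0 hμ1 A hA hα0 hK0 (by
    rw [hcard]
    have h1 : (p : ℝ) * ((⌈γ * N⌉₊ : ℝ) - 1) < p * (γ * N) :=
      mul_lt_mul_of_pos_left (by linarith) hp0
    have h2 : α * (N * (((p : ℝ) + 1) / 2) + p * (γ * N)) = N * p := by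
      rw [hγ]
      field_simp
      ring
    calc α * (N * (((p : ℝ) + 1) / 2) + p * ((⌈γ * N⌉₊ : ℝ) - 1))
        < α * (N * (((p : ℝ) + 1) / 2) + p * (γ * N)) :=
          mul_lt_mul_of_pos_left (by linarith) hα0
      _ = N * p := h2)
  refine ⟨h, f, hs, hf, hpr.trans ?_⟩
  rw [hcard]
  have hNn : (n : ℝ) ≤ 6 * p * N := by exact_mod_cast hN1
  have hN1' : (1 : ℝ) ≤ N := by exact_mod_cast hN0
  have h1 : (p : ℝ) * (b + N + 1) / (⌈γ * N⌉₊ * N) ≤ p * (b + N + 1) / (γ * N * N) := by
    gcongr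
  refine h1.trans ?_
  rw [div_le_iff₀ (by positivity)]
  have h2 : (p : ℝ) * b ≤ η / 2 * (γ * N * N) := by
    have h3 : (b : ℝ) ≤ η * γ / (72 * p ^ 3) * (6 * p * N) ^ 2 := by
      refine hb.trans ?_
      gcongr
    calc (p : ℝ) * b ≤ p * (η * γ / (72 * p ^ 3) * (6 * p * N) ^ 2) :=
          mul_le_mul_of_nonneg_left h3 hp0.le
      _ = η / 2 * (γ * N * N) := by field_simp; ring
  have h4 : (p : ℝ) * (N + 1) ≤ η / 2 * (γ * N * N) := by
    have h5 : 24 * (p : ℝ) ^ 2 ≤ 6 * p * N * (γ * η) := by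
      rw [div_le_iff₀ (by positivity)] at hn2
      refine hn2.trans ?_
      gcongr
    have h6 : 4 * (p : ℝ) ≤ N * (γ * η) := by
      have h7 : 6 * (p : ℝ) * (4 * p) ≤ 6 * p * (N * (γ * η)) := by
        calc 6 * (p : ℝ) * (4 * p) = 24 * (p : ℝ) ^ 2 := by ring
          _ ≤ _ := h5
          _ = _ := by ring
      exact le_of_mul_le_mul_left h7 (by positivity)
    calc (p : ℝ) * (N + 1) ≤ p * (2 * N) := by gcongr; linarith
      _ = 4 * p * (N / 2) := by ring
      _ ≤ N * (γ * η) * (N / 2) := by gcongr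
      _ = _ := by ring
  calc (p : ℝ) * (b + N + 1) = p * b + p * (N + 1) := by ring
    _ ≤ η / 2 * (γ * N * N) + η / 2 * (γ * N * N) := add_le_add h2 h4
    _ = η * (γ * N * N) := by ring

end Pool.Agent.W977.SM
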